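import Pool.Agent.W307.LK.Stm
import Pool.Agent.W654.SHB.Rkk

/-!
# Project LK: Mordell-Weil over multiquadratic fields

Adaptation of `Pool.Agent.W654.SHB.Rkk` (helper654).
-/

set_option autoImplicit false

open WeierstrassCurve Pool.Agent.W262.SH Pool.Agent.W654.SHB
open scoped Classical

namespace Pool.Agent.W307.LK

theorem fg_ext {M M2 N1 N2 : Type} [AddCommGroup M] [AddCommGroup M2] [AddCommGroup N1]
    [AddCommGroup N2] (h1 : AddGroup.FG N1) (h2 : AddGroup.FG N2) (f : M →+ M) (j1 : N1 →+ M)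
    (g : M →+ M2) (j2 : N2 →+ M2) (hg : Function.Injective g)
    (hf1 : ∀ P, ∃ Q, j1 Q = f P) (hf2 : ∀ P, f P = 0 → ∃ Q, j2 Q = g P) : AddGroup.FG M := by
  have i1 : Module.Finite ℤ N1 := Module.Finite.iff_addGroup_fg.mpr h1
  have i2 : Module.Finite ℤ N2 := Module.Finite.iff_addGroup_fg.mpr h2
  have n1 : IsNoetherian ℤ (LinearMap.range j1.toIntLinearMap) := inferInstance
  have n2 : IsNoetherian ℤ (LinearMap.range j2.toIntLinearMap) := inferInstance
  have l1 : ((⊤ : Submodule ℤ M).map f.toIntLinearMap).FG := by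
    refine Submodule.FG.of_le (T := LinearMap.range j1.toIntLinearMap) ?_ ?_
    · exact Module.Finite.iff_fg.1 inferInstance
    · rintro _ ⟨P, _, rfl⟩
      obtain ⟨Q, hQ⟩ := hf1 P
      exact ⟨Q, hQ⟩
  have l2 : ((LinearMap.ker f.toIntLinearMap).map g.toIntLinearMap).FG := by
    refine Submodule.FG.of_le (T := LinearMap.range j2.toIntLinearMap) ?_ ?_
    · exact Module.Finite.iff_fg.1 inferInstance
    · rintro _ ⟨P, hP, rfl⟩
      obtain ⟨Q, hQ⟩ := hf2 P hP
      exact ⟨Q, hQ⟩
  have l3 : (LinearMap.ker f.toIntLinearMap).FG := by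
    refine Submodule.fg_of_fg_map_injective g.toIntLinearMap ?_ l2
    exact hg
  have l4 : (⊤ : Submodule ℤ M).FG := by
    refine Submodule.fg_of_fg_map_of_fg_inf_ker f.toIntLinearMap l1 ?_
    rw [top_inf_eq]
    exact l3
  have : Module.Finite ℤ M := ⟨l4⟩
  exact Module.Finite.iff_addGroup_fg.mp this

/-- a quadratic extension -/
theorem stepF (hT : TWI) {A B D : ℤ} (hA : A ≠ 0) (hB : B ≠ 0) (hAB : A ≠ B) (hD : D ≠ 0)
    {L M : Type} [Field L] [Field M] [Algebra ℚ L] [Algebra ℚ M] (hL : FGp (E A B) L)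
    (hL2 : FGp (E (D * A) (D * B)) L) (j : L →ₐ[ℚ] M) (σ : M →ₐ[ℚ] M)
    (hσ : ∀ x, σ (σ x) = x) (hfix : ∀ x, σ x = x → ∃ y, j y = x) (s : M)
    (hs : s ^ 2 = (D : M)) (hσs : σ s = -s) : FGp (E A B) M := by
  unfold FGp at hL hL2 ⊢
  obtain ⟨θ, hθ⟩ := hT A B D hA hB hAB hD
  obtain ⟨hadd, hbij, hneg, hnat⟩ := hθ M s hs
  set f : Pt (E A B) M →+ Pt (E A B) M := AddMonoidHom.id _ + act (E A B) σ with hf
  have hσσ : ∀ P, act (E A B) σ (act (E A B) σ P) = P := by
    intro P
    rcases P with _ | ⟨x, y, h⟩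
    · rfl
    · have h1 : act (E A B) σ (act (E A B) σ (.some x y h)) = .some (σ (σ x)) (σ (σ y))
          (((E A B).toAffine.baseChange_nonsingular σ.injective _ _).2
            (((E A B).toAffine.baseChange_nonsingular σ.injective x y).2 h)) := rfl
      rw [h1, Affine.Point.some.injEq]
      exact ⟨hσ x, hσ y⟩
  set g : Pt (E A B) M →+ Pt (E (D * A) (D * B)) M := AddMonoidHom.mk' (θ M s) hadd with hg
  refine fg_ext hL hL2 f (act (E A B) j) g (act (E (D * A) (D * B)) j) hbij.1 ?_ ?_
  · intro P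
    have h2 : act (E A B) σ (P + act (E A B) σ P) = P + act (E A B) σ P := by
      rw [map_add, hσσ, add_comm]
    obtain ⟨Q, hQ⟩ := descend (E A B) j σ hfix _ h2
    exact ⟨Q, hQ⟩
  · intro P hP0
    have hP0' : P + act (E A B) σ P = 0 := hP0
    have hP1 : act (E A B) σ P = -P := (neg_eq_of_add_eq_zero_right hP0').symm
    have h2 : act (E (D * A) (D * B)) σ (θ M s P) = θ M s P := by
      rw [hnat M σ P, hσs, hneg, hP1]
      have h3 : g (-P) = - g P := map_neg g P
      have h4 : θ M s (-P) = - θ M s P := h3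
      rw [h4, neg_neg]
    obtain ⟨Q, hQ⟩ := descend (E (D * A) (D * B)) j σ hfix _ h2
    exact ⟨Q, hQ⟩

/-- an embedding -/
theorem fg_inj (W : WeierstrassCurve ℚ) {L M : Type} [Field L] [Field M] [Algebra ℚ L]
    [Algebra ℚ M] (j : L →ₐ[ℚ] M) (h : FGp W M) : FGp W L := by
  unfold FGp at h ⊢
  have hj : Function.Injective (act W j).toIntLinearMap :=
    Affine.Point.map_injective (W' := W.toAffine) j
  have i1 : Module.Finite ℤ (Pt W M) := Module.Finite.iff_addGroup_fg.mpr h
  have i2 : IsNoetherian ℤ (Pt W M) := inferInstance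
  have i3 : IsNoetherian ℤ (Pt W L) := isNoetherian_of_injective _ hj
  have i4 : Module.Finite ℤ (Pt W L) := inferInstance
  exact Module.Finite.iff_addGroup_fg.mp i4

theorem kd_stepF (hT : TWI) (n : ℕ) (D : Fin (n + 1) → ℤ) {A B : ℤ} (hA : A ≠ 0) (hB : B ≠ 0)
    (hAB : A ≠ B) (hD : D 0 ≠ 0) (hL : FGp (E A B) (KD (fun i : Fin n => D i.succ)))
    (hL2 : FGp (E (D 0 * A) (D 0 * B)) (KD (fun i : Fin n => D i.succ))) :
    FGp (E A B) (KD D) := by
  have := galQB
  obtain ⟨s, hs⟩ : ∃ s : QB, s ^ 2 = (D 0 : QB) := IsAlgClosed.exists_pow_nat_eq _ (by norm_num)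
  by_cases hsK : s ∈ KD (fun i : Fin n => D i.succ)
  · have hK : KD D = KD (fun i : Fin n => D i.succ) := by
      refine le_antisymm ?_ (kd_le D)
      refine IntermediateField.adjoin_le_iff.2 ?_
      rintro r ⟨i, hr⟩
      rcases Fin.eq_zero_or_eq_succ i with rfl | ⟨k, rfl⟩
      · rcases sq_eq (hr.trans hs.symm) with h | h
        · rw [h]; exact hsK
        · rw [h]; exact neg_mem hsK
      · exact gen_mem (fun i : Fin n => D i.succ) hr
    rw [hK]
    exact hL
  · have h1 : ∃ τ ∈ (KD (fun i : Fin n => D i.succ)).fixingSubgroup, τ s ≠ s := by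
      by_contra hcon
      push Not at hcon
      apply hsK
      rw [← InfiniteGalois.fixedField_fixingSubgroup (KD (fun i : Fin n => D i.succ))]
      rw [IntermediateField.mem_fixedField_iff]
      exact hcon
    obtain ⟨τ, hτ, hτs⟩ := h1
    have hτK : ∀ x ∈ KD (fun i : Fin n => D i.succ), τ x = x :=
      (IntermediateField.mem_fixingSubgroup_iff _ _).1 hτ
    have hτs2 : τ s = -s := by
      have h2 : (τ s) ^ 2 = s ^ 2 := by rw [← map_pow, hs]; simp
      rcases sq_eq h2 with h | h
      · exact absurd h hτs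
      · exact h
    set σ : KD D →ₐ[ℚ] KD D := (τ.toAlgHom.comp (KD D).val).codRestrict (KD D).toSubalgebra
      (fun x => stable D τ.toAlgHom x.2) with hσ
    have hσv : ∀ x : KD D, ((σ x : KD D) : QB) = τ (x : QB) := fun x => rfl
    refine stepF hT hA hB hAB hD hL hL2 (IntermediateField.inclusion (kd_le D)) σ ?_ ?_
      ⟨s, gen_mem D hs⟩ ?_ ?_
    · intro x
      apply Subtype.ext
      rw [hσv, hσv]
      refine fixes D s hs (τ * τ) ?_ ?_ x x.2
      · intro y hy
        show τ (τ y) = y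
        rw [hτK y hy, hτK y hy]
      · show τ (τ s) = s
        rw [hτs2, map_neg, hτs2, neg_neg]
    · intro x hx
      have hx' : τ (x : QB) = x := by
        have := congrArg (fun z : KD D => (z : QB)) hx
        exact this
      have hxK : (x : QB) ∈ KD (fun i : Fin n => D i.succ) := by
        rw [← InfiniteGalois.fixedField_fixingSubgroup (KD (fun i : Fin n => D i.succ))]
        rw [IntermediateField.mem_fixedField_iff]
        intro g hg
        have hgK : ∀ x ∈ KD (fun i : Fin n => D i.succ), g x = x :=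
          (IntermediateField.mem_fixingSubgroup_iff _ _).1 hg
        have h2 : (g s) ^ 2 = s ^ 2 := by rw [← map_pow, hs]; simp
        rcases sq_eq h2 with h | h
        · exact fixes D s hs g hgK h x x.2
        · have h3 := fixes D s hs (τ⁻¹ * g) (fun y hy => by
            show τ⁻¹ (g y) = y
            rw [hgK y hy]
            exact (AlgEquiv.symm_apply_eq τ).2 (hτK y hy).symm) (by
            show τ⁻¹ (g s) = s
            rw [h]
            exact (AlgEquiv.symm_apply_eq τ).2 hτs2.symm) x x.2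
          have h4 : τ⁻¹ (g (x : QB)) = x := h3
          have h5 : g (x : QB) = τ x := (AlgEquiv.symm_apply_eq τ).1 h4
          rw [h5, hx']
      exact ⟨⟨x, hxK⟩, Subtype.ext rfl⟩
    · apply Subtype.ext
      show s ^ 2 = _
      rw [hs]
      simp
    · apply Subtype.ext
      rw [hσv]
      exact hτs2


theorem fg_inst {F : Type} [Field F] (W : WeierstrassCurve F) (d1 d2 : DecidableEq F) :
    @AddGroup.FG W.toAffine.Point
      (@WeierstrassCurve.Affine.Point.instAddCommGroup F _ W.toAffine d1).toAddGroup →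
    @AddGroup.FG W.toAffine.Point
      (@WeierstrassCurve.Affine.Point.instAddCommGroup F _ W.toAffine d2).toAddGroup := by
  rw [Subsingleton.elim d1 d2]
  exact id

theorem fgk_of (hT : TWI) : FGK := by
  intro n
  induction n with
  | zero =>
    intro D A B hA hB hAB hD
    have hK : KD D = ⊥ := by
      rw [eq_bot_iff]
      refine IntermediateField.adjoin_le_iff.2 ?_
      rintro r ⟨i, _⟩
      exact i.elim0
    set φ : KD D →ₐ[ℚ] ℚ := ((IntermediateField.equivOfEq hK).trans
      (IntermediateField.botEquiv ℚ QB)).toAlgHom with hφ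
    refine fg_inj (E A B) φ ?_
    have h2 : (E A B).baseChange ℚ = E A B := by
      unfold WeierstrassCurve.baseChange
      exact WeierstrassCurve.map_id _
    have h3 := (Pool.Agent.W214.RK.half A B hA hB hAB).1
    unfold FGp Pt
    rw [h2]
    exact fg_inst (E A B) _ _ h3
  | succ n ih =>
    intro D A B hA hB hAB hD
    exact kd_stepF hT n D hA hB hAB (hD 0)
      (ih (fun i => D i.succ) A B hA hB hAB (fun i => hD _))
      (ih (fun i => D i.succ) (D 0 * A) (D 0 * B) (mul_ne_zero (hD 0) hA)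
        (mul_ne_zero (hD 0) hB) (fun h => hAB (mul_left_cancel₀ (hD 0) h)) (fun i => hD _))

end Pool.Agent.W307.LK
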