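import Pool.Agent.W307.LK.Main
import Pool.Agent.W307.LK.Fgk
import Pool.Agent.W307.LS.Fin
import Pool.Agent.W583.LK.RNKL
import Pool.Agent.W348.LK.SHL
import Pool.Agent.W919.LK.KERL
import Pool.Agent.W756.SH.Twi
import Pool.Agent.W736.SH.PHI
import Pool.Agent.W654.SHB.Rkk
import Pool.Agent.W305.SH.Abs
import Pool.Agent.W352.SH.Grp

/-!
# Project LK: conclusion
-/

set_option autoImplicit false

namespace Pool.Agent.W307.LK

open Finset WeierstrassCurve Pool.Agent.W262.SH Filter Pool.Agent.W307.LS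

open scoped Classical

theorem fgk : FGK := fgk_of Pool.Agent.W756.SH.Twi.twi

theorem rnkl : RNKL := Pool.Agent.W583.LK.rnkl_of iso

theorem shl : SHL := Pool.Agent.W348.LK.shl_of iso

theorem phi : PHI := Pool.Agent.W736.SH.PHI.phi Pool.Agent.W305.SH.absc
  Pool.Agent.W756.SH.Twi.twi

theorem rkk : RKK := Pool.Agent.W654.SHB.rkk Pool.Agent.W756.SH.Twi.twi

theorem big : ∀ (l : ℕ) (D : Fin l → ℤ), (∀ i, D i ≠ 0) → ∀ ε : ℝ, 0 < ε →
      Tendsto (fun T : ℕ => (((Fam T).filter (fun t =>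
      ∀ n : ℕ, (n : ℝ) ≤ (3 / 2 - ε) * Real.log (Real.log T) →
        ∃ j : (Fin n → ZMod 2) →+ ShaK (F4 t.1 t.2) (KD D), Function.Injective j)).card : ℝ) /
      (Fam T).card) atTop (nhds 1) :=
  big_of rnkl fgk shl phi Pool.Agent.W352.SH.grp rkk mem Pool.Agent.W131.LS.dcnt
    Pool.Agent.W919.LK.KERL.kerl dens

theorem small : ∃ C : ℝ, ∀ (l : ℕ) (D : Fin l → ℤ), (∀ i, D i ≠ 0) →
    ∀ (T : ℕ) (r : ℤ × ℤ → ℕ),
    (∀ t ∈ Fam T, ∃ j : (Fin (r t) → ZMod (2 ^ (l + 2))) →+ ShaK (F4 t.1 t.2) (KD D),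
      Function.Injective j) →
    ∑ t ∈ Fam T, (4 : ℝ) ^ (((rkp (F4 t.1 t.2) (KD D) + r t : ℕ) : ℝ) / 2 ^ l) ≤
      C * 128 ^ (∏ i, D i).natAbs.primeFactors.card * (Fam T).card :=
  small_of rnkl fgk shl phi Pool.Agent.W352.SH.grp rkk

end Pool.Agent.W307.LK
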