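import Pool.Agent.W307.LK.Stm
import Pool.Agent.W307.LS.Main
import Pool.Agent.W262.SH.FamB

/-!
# Project LK: assembly
-/

set_option autoImplicit false

namespace Pool.Agent.W307.LK

open Finset WeierstrassCurve Pool.Agent.W262.SH Filter Pool.Agent.W307.LS

open scoped Classical

lemma natAbs_four_mul (D : ℤ) (hD : D ≠ 0) :
    (D * 4).natAbs.primeFactors.card ≤ 1 + D.natAbs.primeFactors.card := by
  rw [Int.natAbs_mul, Nat.primeFactors_mul (Int.natAbs_ne_zero.2 hD) (by norm_num)]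
  refine (card_union_le _ _).trans ?_
  have h4 : ((4 : ℤ).natAbs.primeFactors).card = 1 := by
    have : (4 : ℤ).natAbs = 2 ^ 2 := rfl
    rw [this, Nat.primeFactors_prime_pow (by norm_num) Nat.prime_two, card_singleton]
  omega

/-- the second moment of the weight in the box, with a twist -/
theorem wtbD : ∃ C : ℝ, 0 ≤ C ∧ ∀ D : ℤ, D ≠ 0 → ∀ T : ℕ, 1 ≤ T →
    ∑ t ∈ Bx T, (wt (D * (4 * t.1)) (D * (4 * t.2))) ^ 2 ≤
      C * 128 ^ D.natAbs.primeFactors.card * (T : ℝ) ^ 2 := by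
  have h1 : Pool.Agent.W307.FK.G.AVGNG Pool.Agent.W307.FK.G.nS :=
    Pool.Agent.W307.FK.G.avgng_of (Pool.Agent.W307.FK.G.avgfg_of Pool.Agent.W307.FK.G.selfs
      Pool.Agent.W307.FK.cntf (Pool.Agent.W307.FK.maf_of Pool.Agent.W307.FK.expf)
      Pool.Agent.W503.FK.subf)
  obtain ⟨C, hC, h⟩ := box_GD h1 Pool.Agent.W334.FK.som
  refine ⟨C * 128, by positivity, fun D hD T hT => ?_⟩
  have h4 : D * 4 ≠ 0 := mul_ne_zero hD (by norm_num)
  have h5 := h (D * 4) h4 T hT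
  have h6 : (128 : ℝ) ^ (D * 4).natAbs.primeFactors.card ≤
      128 * 128 ^ D.natAbs.primeFactors.card := by
    calc (128 : ℝ) ^ (D * 4).natAbs.primeFactors.card
        ≤ 128 ^ (1 + D.natAbs.primeFactors.card) :=
          pow_le_pow_right₀ (by norm_num) (natAbs_four_mul D hD)
      _ = _ := by rw [pow_add, pow_one]
  calc ∑ t ∈ Bx T, (wt (D * (4 * t.1)) (D * (4 * t.2))) ^ 2
      ≤ ∑ t ∈ Bx T, GD Pool.Agent.W307.FK.G.nS (D * 4) t := by
        apply sum_le_sum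
        intro t ht
        obtain ⟨_, t1, t2, t3⟩ := mem_filter.1 ht
        unfold GD
        rw [if_pos ⟨t1, t2, t3⟩, ← mul_assoc, ← mul_assoc]
        refine pow_le_pow_left₀ (Pool.Agent.W262.SH.wt_nonneg _ _) ?_ 2
        exact Pool.Agent.W262.SH.wt_le Pool.Agent.W307.FK.G.desc5 Pool.Agent.W307.FK.G.sh1
          Pool.Agent.W307.FK.G.sh2 (mul_ne_zero h4 t1) (mul_ne_zero h4 t2)
          (fun h => t3 (mul_left_cancel₀ h4 h))
    _ ≤ ∑ t ∈ Pool.Agent.W307.RT.Box T, GD Pool.Agent.W307.FK.G.nS (D * 4) t :=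
        sum_le_sum_of_subset_of_nonneg (filter_subset _ _) fun t _ _ => GD_nonneg _ _ _
    _ ≤ _ := h5
    _ ≤ C * (128 * 128 ^ D.natAbs.primeFactors.card) * (T : ℝ) ^ 2 :=
        mul_le_mul_of_nonneg_right (mul_le_mul_of_nonneg_left h6 hC) (by positivity)
    _ = _ := by ring

theorem rkp_eq (A B : ℤ) (L : IntermediateField ℚ QB) (inst : DecidableEq L) :
    rkp (E A B) L = @Module.finrank ℤ (Pt (E A B) L) _
      (@WeierstrassCurve.Affine.Point.instAddCommGroup L _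
        ((E A B).baseChange L).toAffine inst).toAddCommMonoid
      (@AddCommGroup.toIntModule _ (@WeierstrassCurve.Affine.Point.instAddCommGroup L _
        ((E A B).baseChange L).toAffine inst)) := by
  unfold rkp
  have h : inst = (fun a b => Classical.propDecidable (a = b)) := Subsingleton.elim _ _
  rw [h]

/-- the pointwise bound -/
theorem ptF (h1 : RNKL) (hF : FGK) (hS : SHL) (hphi : PHI) (hgrp : GRP) (hrk : RKK)
    {l : ℕ} (D : Fin l → ℤ) {a b : ℤ} (ha : a ≠ 0) (hb : b ≠ 0) (hab : a ≠ b)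
    (hD : ∀ i, D i ≠ 0) (r : ℕ) (j : (Fin r → ZMod (2 ^ (l + 2))) →+ ShaK (F4 a b) (KD D))
    (hj : Function.Injective j) :
    (2 : ℝ) ^ (((rkp (F4 a b) (KD D) + r : ℕ) : ℝ) / 2 ^ l) ≤
      (2 ^ l : ℝ)⁻¹ * ∑ S : Finset (Fin l),
        wt ((∏ i ∈ S, D i) * (4 * a)) ((∏ i ∈ S, D i) * (4 * b)) := by
  have hS0 : ∀ S : Finset (Fin l), (∏ i ∈ S, D i) ≠ 0 := fun S =>
    prod_ne_zero_iff.2 fun i _ => hD i
  have hA : 4 * a ≠ 0 := mul_ne_zero (by norm_num) ha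
  have hB : 4 * b ≠ 0 := mul_ne_zero (by norm_num) hb
  have hAB : 4 * a ≠ 4 * b := fun h => hab (mul_left_cancel₀ (by norm_num) h)
  obtain ⟨Φ, hΦ⟩ := hphi l D (4 * a) (4 * b) hA hB hAB hD
  obtain ⟨Ψ, hΨ⟩ := hS a b ha hb hab (KD D)
  obtain ⟨hf, hc⟩ := card_two (fun S : Finset (Fin l) =>
    Sha (E ((∏ i ∈ S, D i) * (4 * a)) ((∏ i ∈ S, D i) * (4 * b)))) (fun S =>
    fin_sha Pool.Agent.W307.FK.G.desc5 Pool.Agent.W307.FK.G.sh1 Pool.Agent.W307.FK.G.sh2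
      (mul_ne_zero (hS0 S) hA) (mul_ne_zero (hS0 S) hB)
      (fun h => hAB (mul_left_cancel₀ (hS0 S) h)))
  have hker : ∀ c, (Φ.comp Ψ) c = 0 → (2 ^ (l + 1)) • c = 0 := by
    intro c hc0
    have e1 := hΦ (Ψ c) hc0
    rw [← map_nsmul] at e1
    have e2 := hΨ _ e1
    rw [pow_succ, mul_nsmul, two_nsmul]
    rw [← nsmul_add] at e2 ⊢
    exact e2
  have h3 := hgrp (l + 1) r _ _ (Φ.comp Ψ) hker j hj hf
  rw [hc] at h3
  obtain ⟨_, h4⟩ := h1 a b ha hb hab (KD D) (hF l D _ _ hA hB hAB hD)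
  have h4' : rkp (F4 a b) (KD D) ≤ ∑ S : Finset (Fin l), Module.finrank ℤ
      (E ((∏ i ∈ S, D i) * (4 * a)) ((∏ i ∈ S, D i) * (4 * b))).toAffine.Point :=
    h4.trans (le_trans (le_of_eq (rkp_eq _ _ _ _)) (hrk l D (4 * a) (4 * b) hA hB hAB hD))
  have h5 := amgm (fun S : Finset (Fin l) => wt ((∏ i ∈ S, D i) * (4 * a))
    ((∏ i ∈ S, D i) * (4 * b)))
    (fun S => wt_nonneg _ _) ((rkp (F4 a b) (KD D) + r : ℕ) : ℝ) (by
      unfold wt
      rw [Real.rpow_natCast, prod_mul_distrib, prod_pow_eq_pow_sum, pow_add]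
      refine mul_le_mul (pow_le_pow_right₀ (by norm_num) h4') ?_ (by positivity) (by positivity)
      exact_mod_cast h3)
  have h6 : (Fintype.card (Finset (Fin l)) : ℝ) = 2 ^ l := by
    rw [Fintype.card_finset, Fintype.card_fin]
    push_cast
    rfl
  rw [h6] at h5
  exact h5

/-- the mean over a part of the box -/
theorem meanB {C : ℝ} (hC0 : 0 ≤ C) (hC : ∀ D : ℤ, D ≠ 0 → ∀ T : ℕ, 1 ≤ T →
    ∑ t ∈ Bx T, (wt (D * (4 * t.1)) (D * (4 * t.2))) ^ 2 ≤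
      C * 128 ^ D.natAbs.primeFactors.card * (T : ℝ) ^ 2)
    {l : ℕ} (D : Fin l → ℤ) (hD : ∀ i, D i ≠ 0) (T : ℕ) (hT : 1 ≤ T) (U : Finset (ℤ × ℤ))
    (hU : U ⊆ Bx T) (y : ℤ × ℤ → ℝ)
    (hy : ∀ t ∈ U, (2 : ℝ) ^ (y t / 2 ^ l) ≤ (2 ^ l : ℝ)⁻¹ * ∑ S : Finset (Fin l),
        wt ((∏ i ∈ S, D i) * (4 * t.1)) ((∏ i ∈ S, D i) * (4 * t.2))) :
    ∑ t ∈ U, (4 : ℝ) ^ (y t / 2 ^ l) ≤
      C * 128 ^ (∏ i, D i).natAbs.primeFactors.card * (T : ℝ) ^ 2 := by
  have hP : ∏ i, D i ≠ 0 := prod_ne_zero_iff.2 fun i _ => hD i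
  have h6 : (Fintype.card (Finset (Fin l)) : ℝ) = 2 ^ l := by
    rw [Fintype.card_finset, Fintype.card_fin]
    push_cast
    rfl
  have hc : (0 : ℝ) < 2 ^ l := by positivity
  have h1 : ∀ t ∈ U, (4 : ℝ) ^ (y t / 2 ^ l) ≤ (2 ^ l : ℝ)⁻¹ * ∑ S : Finset (Fin l),
      wt ((∏ i ∈ S, D i) * (4 * t.1)) ((∏ i ∈ S, D i) * (4 * t.2)) ^ 2 := by
    intro t ht
    have e1 : ∀ u : ℝ, (4 : ℝ) ^ u = ((2 : ℝ) ^ u) ^ 2 := by
      intro u
      rw [← Real.rpow_natCast, ← Real.rpow_mul (by norm_num),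
        mul_comm, Real.rpow_mul (by norm_num)]
      norm_num
    rw [e1]
    have h2 := pow_le_pow_left₀ (by positivity) (hy t ht) 2
    refine h2.trans ?_
    rw [mul_pow]
    have h3 := sq_sum_le_card_mul_sum_sq (s := (univ : Finset (Finset (Fin l))))
      (f := fun S => wt ((∏ i ∈ S, D i) * (4 * t.1)) ((∏ i ∈ S, D i) * (4 * t.2)))
    rw [card_univ, h6] at h3
    calc (2 ^ l : ℝ)⁻¹ ^ 2 * (∑ S : Finset (Fin l),
        wt ((∏ i ∈ S, D i) * (4 * t.1)) ((∏ i ∈ S, D i) * (4 * t.2))) ^ 2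
        ≤ (2 ^ l : ℝ)⁻¹ ^ 2 * (2 ^ l * ∑ S : Finset (Fin l),
          wt ((∏ i ∈ S, D i) * (4 * t.1)) ((∏ i ∈ S, D i) * (4 * t.2)) ^ 2) :=
          mul_le_mul_of_nonneg_left h3 (by positivity)
      _ = _ := by
          rw [sq, mul_assoc, ← mul_assoc ((2 ^ l : ℝ)⁻¹) (2 ^ l : ℝ),
            inv_mul_cancel₀ hc.ne', one_mul]
  refine (sum_le_sum h1).trans ?_
  rw [← mul_sum, sum_comm]
  have h2 : ∀ S : Finset (Fin l), ∑ t ∈ U,
      wt ((∏ i ∈ S, D i) * (4 * t.1)) ((∏ i ∈ S, D i) * (4 * t.2)) ^ 2 ≤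
      C * 128 ^ (∏ i, D i).natAbs.primeFactors.card * (T : ℝ) ^ 2 := by
    intro S
    have hi : (∏ i ∈ S, D i) ≠ 0 := prod_ne_zero_iff.2 fun i _ => hD i
    refine (sum_le_sum_of_subset_of_nonneg hU fun t _ _ => sq_nonneg _).trans ?_
    refine (hC _ hi T hT).trans ?_
    refine mul_le_mul_of_nonneg_right (mul_le_mul_of_nonneg_left ?_ hC0) (by positivity)
    refine pow_le_pow_right₀ (by norm_num) (card_le_card ?_)
    exact Nat.primeFactors_mono (Int.natAbs_dvd_natAbs.2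
      (prod_dvd_prod_of_subset _ _ _ (subset_univ S))) (Int.natAbs_ne_zero.2 hP)
  calc (2 ^ l : ℝ)⁻¹ * ∑ S : Finset (Fin l), ∑ t ∈ U,
      wt ((∏ i ∈ S, D i) * (4 * t.1)) ((∏ i ∈ S, D i) * (4 * t.2)) ^ 2
      ≤ (2 ^ l : ℝ)⁻¹ * ∑ _S : Finset (Fin l), C * 128 ^ (∏ i, D i).natAbs.primeFactors.card *
        (T : ℝ) ^ 2 :=
        mul_le_mul_of_nonneg_left (sum_le_sum fun i _ => h2 i) (by positivity)
    _ = _ := by
        rw [sum_const, card_univ, nsmul_eq_mul, h6, ← mul_assoc, inv_mul_cancel₀ hc.ne', one_mul]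

/-- the second part -/
theorem small_of (h1 : RNKL) (hF : FGK) (hS : SHL) (hphi : PHI) (hgrp : GRP) (hrk : RKK) :
    ∃ C : ℝ, ∀ (l : ℕ) (D : Fin l → ℤ), (∀ i, D i ≠ 0) → ∀ (T : ℕ) (r : ℤ × ℤ → ℕ),
    (∀ t ∈ Fam T, ∃ j : (Fin (r t) → ZMod (2 ^ (l + 2))) →+ ShaK (F4 t.1 t.2) (KD D),
      Function.Injective j) →
    ∑ t ∈ Fam T, (4 : ℝ) ^ (((rkp (F4 t.1 t.2) (KD D) + r t : ℕ) : ℝ) / 2 ^ l) ≤
      C * 128 ^ (∏ i, D i).natAbs.primeFactors.card * (Fam T).card := by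
  obtain ⟨C, hC0, hC⟩ := wtbD
  refine ⟨4 * C, fun l D hD T r hr => ?_⟩
  rcases Nat.eq_zero_or_pos T with rfl | hT
  · have h0 : Fam 0 = ∅ := by
      unfold Fam
      rw [filter_eq_empty_iff]
      intro t ht hcon
      rw [mem_product, mem_Icc, mem_Icc] at ht
      exact hcon.1 (by push_cast at ht; omega)
    rw [h0]
    simp
  have h3 := meanB hC0 hC D hD T hT (Fam T) (fam_sub T)
    (fun t => ((rkp (F4 t.1 t.2) (KD D) + r t : ℕ) : ℝ)) (fun t ht => by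
      obtain ⟨j, hj⟩ := hr t ht
      obtain ⟨_, t1, t2, t3, _⟩ := mem_filter.1 ht
      exact ptF h1 hF hS hphi hgrp hrk D t1 t2 t3 hD (r t) j hj)
  have h5 := fam_low T hT
  refine h3.trans ?_
  obtain ⟨Q, hQ⟩ : ∃ Q : ℝ, Q = C * 128 ^ (∏ i, D i).natAbs.primeFactors.card := ⟨_, rfl⟩
  have hQ0 : 0 ≤ Q := by rw [hQ]; positivity
  rw [← hQ]
  calc Q * (T : ℝ) ^ 2 ≤ Q * (4 * (Fam T).card) := by
        refine mul_le_mul_of_nonneg_left ?_ hQ0
        linarith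
    _ = _ := by rw [hQ]; ring

/-- convergence of the proportion -/
theorem prop_of (P : ℕ → ℤ × ℤ → Prop) (A R : ℕ → Finset (ℤ × ℤ))
    (hA0 : Tendsto (fun T : ℕ => ((A T).card : ℝ) / (T : ℝ) ^ 2) atTop (nhds 0))
    (hR0 : Tendsto (fun T : ℕ => ((R T).card : ℝ) / (T : ℝ) ^ 2) atTop (nhds 0))
    (hgood : ∀ᶠ T : ℕ in atTop, (Fam T).filter (fun t => ¬ P T t) ⊆ A T ∪ R T) :
    Tendsto (fun T : ℕ => (((Fam T).filter (P T)).card : ℝ) / (Fam T).card) atTop (nhds 1) := by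
  have hlim : Tendsto (fun T : ℕ => 1 - 4 * (((A T).card : ℝ) / (T : ℝ) ^ 2 +
      ((R T).card : ℝ) / (T : ℝ) ^ 2)) atTop (nhds 1) := by
    have := (hA0.add hR0).const_mul 4
    have h2 := this.const_sub 1
    simpa using h2
  refine tendsto_of_tendsto_of_tendsto_of_le_of_le' hlim tendsto_const_nhds ?_ ?_
  · filter_upwards [hgood, eventually_ge_atTop 1] with T hg hT
    have hT0 : (0 : ℝ) < (T : ℝ) ^ 2 := by
      have : (0 : ℝ) < T := by exact_mod_cast hT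
      positivity
    have hf := fam_low T hT
    have hf0 : (0 : ℝ) < (Fam T).card := by nlinarith
    have h5 := card_filter_add_card_filter_not (s := Fam T) (P T)
    have h6 : ((Fam T).filter (fun t => ¬ P T t)).card ≤ (A T).card + (R T).card :=
      (card_le_card hg).trans (card_union_le _ _)
    have h7 : ((Fam T).card : ℝ) - ((A T).card + (R T).card) ≤
        (((Fam T).filter (P T)).card : ℝ) := by
      have : (Fam T).card ≤ ((Fam T).filter (P T)).card +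
        ((A T).card + (R T).card) := by omega
      have h8 : ((Fam T).card : ℝ) ≤ (((Fam T).filter (P T)).card : ℝ) +
        ((A T).card + (R T).card) := by exact_mod_cast this
      linarith
    rw [le_div_iff₀ hf0]
    refine le_trans ?_ h7
    have h9 : ((A T).card : ℝ) + (R T).card ≤ 4 * (((A T).card : ℝ) / (T : ℝ) ^ 2 +
        ((R T).card : ℝ) / (T : ℝ) ^ 2) * (Fam T).card := by
      have g1 : ((A T).card : ℝ) / (T : ℝ) ^ 2 + ((R T).card : ℝ) / (T : ℝ) ^ 2 =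
          (((A T).card : ℝ) + (R T).card) / (T : ℝ) ^ 2 := by rw [add_div]
      rw [g1]
      calc ((A T).card : ℝ) + (R T).card
          = 4 * ((((A T).card : ℝ) + (R T).card) / (T : ℝ) ^ 2) * (1 / 4 * (T : ℝ) ^ 2) := by
            field_simp
        _ ≤ _ := mul_le_mul_of_nonneg_left hf (by positivity)
    linarith
  · exact Eventually.of_forall fun T => div_le_one_of_le₀
      (by exact_mod_cast card_filter_le _ _) (Nat.cast_nonneg _)

/-- the first part -/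
theorem big_of (h1 : RNKL) (hF : FGK) (hS : SHL) (hphi : PHI) (hgrp : GRP) (hrk : RKK)
    (hmem : MEM) (hcnt : DCNT) (hker : KERL) (hdens : DENS) :
    ∀ (l : ℕ) (D : Fin l → ℤ), (∀ i, D i ≠ 0) → ∀ ε : ℝ, 0 < ε →
      Tendsto (fun T : ℕ => (((Fam T).filter (fun t =>
      ∀ n : ℕ, (n : ℝ) ≤ (3 / 2 - ε) * Real.log (Real.log T) →
        ∃ j : (Fin n → ZMod 2) →+ ShaK (F4 t.1 t.2) (KD D), Function.Injective j)).card : ℝ) /
      (Fam T).card) atTop (nhds 1) := by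
  intro l D hD ε hε
  obtain ⟨C, hC, hb⟩ := wtbD
  obtain ⟨δ, hδ⟩ : ∃ δ, δ = ε / 4 := ⟨_, rfl⟩
  have hδ0 : 0 < δ := by rw [hδ]; positivity
  -- the bad sets
  obtain ⟨A, hA⟩ : ∃ A : ℕ → Finset (ℤ × ℤ), A = fun T : ℕ => (Bx T).filter (fun t =>
    ((SS t.1 t.2).card : ℝ) - (BB t.1 t.2).card < (3 / 2 - δ) * Real.log (Real.log T)) :=
    ⟨_, rfl⟩
  obtain ⟨R, hR⟩ : ∃ R : ℕ → Finset (ℤ × ℤ), R = fun T : ℕ => (Bx T).filter (fun t =>
    δ * Real.log (Real.log T) < (rkp (F4 t.1 t.2) (KD D) : ℝ)) := ⟨_, rfl⟩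
  have hA0 : Tendsto (fun T : ℕ => ((A T).card : ℝ) / (T : ℝ) ^ 2) atTop (nhds 0) := by
    rw [hA]
    exact hdens δ hδ0
  obtain ⟨C', hC'⟩ : ∃ C' : ℝ, C' = C * 128 ^ (∏ i, D i).natAbs.primeFactors.card := ⟨_, rfl⟩
  have hC'0 : 0 ≤ C' := by rw [hC']; positivity
  obtain ⟨κ, hκ⟩ : ∃ κ : ℝ, κ = δ / 2 ^ l := ⟨_, rfl⟩
  have hκ0 : 0 < κ := by rw [hκ]; positivity
  have hR1 : ∀ T : ℕ, 1 ≤ T → ((R T).card : ℝ) / (T : ℝ) ^ 2 ≤
      C' * Real.exp (-(κ * Real.log (Real.log T))) ∨ Real.log (Real.log T) < 0 := by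
    intro T hT
    by_cases hneg : Real.log (Real.log T) < 0
    · exact Or.inr hneg
    left
    rw [not_lt] at hneg
    have hT0 : (0 : ℝ) < (T : ℝ) ^ 2 := by
      have : (0 : ℝ) < T := by exact_mod_cast hT
      positivity
    have e0 := meanB hC hb D hD T hT (R T) (by rw [hR]; exact filter_subset _ _)
      (fun t => ((rkp (F4 t.1 t.2) (KD D) + 0 : ℕ) : ℝ)) (fun t ht => by
        rw [hR] at ht
        obtain ⟨ht1, _⟩ := mem_filter.1 ht
        obtain ⟨_, t1, t2, t3⟩ := mem_filter.1 ht1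
        exact ptF h1 hF hS hphi hgrp hrk D t1 t2 t3 hD 0 0
          (Function.injective_of_subsingleton _))
    have e1 : ((R T).card : ℝ) * Real.exp (κ * Real.log (Real.log T)) ≤ C' * (T : ℝ) ^ 2 := by
      calc ((R T).card : ℝ) * Real.exp (κ * Real.log (Real.log T))
          = ∑ t ∈ R T, Real.exp (κ * Real.log (Real.log T)) := by
            rw [sum_const, nsmul_eq_mul]
        _ ≤ ∑ t ∈ R T, (4 : ℝ) ^ (((rkp (F4 t.1 t.2) (KD D) + 0 : ℕ) : ℝ) / 2 ^ l) := by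
            apply sum_le_sum
            intro t ht
            rw [hR] at ht
            obtain ⟨_, ht2⟩ := mem_filter.1 ht
            have hl : (0 : ℝ) < 2 ^ l := by positivity
            calc Real.exp (κ * Real.log (Real.log T))
                ≤ Real.exp (((rkp (F4 t.1 t.2) (KD D) + 0 : ℕ) : ℝ) / 2 ^ l) := by
                  apply Real.exp_le_exp.2
                  rw [hκ, div_mul_eq_mul_div, add_zero]
                  exact div_le_div_of_nonneg_right ht2.le hl.le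
              _ = Real.exp 1 ^ (((rkp (F4 t.1 t.2) (KD D) + 0 : ℕ) : ℝ) / 2 ^ l) := by
                  rw [← Real.exp_mul, one_mul]
              _ ≤ _ := Real.rpow_le_rpow (Real.exp_pos 1).le
                  (Real.exp_one_lt_d9.le.trans (by norm_num)) (by positivity)
        _ ≤ C' * (T : ℝ) ^ 2 := by rw [hC']; exact e0
    rw [div_le_iff₀ hT0, Real.exp_neg]
    have e2 := Real.exp_pos (κ * Real.log (Real.log T))
    calc ((R T).card : ℝ) = ((R T).card : ℝ) * Real.exp (κ * Real.log (Real.log T)) *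
          (Real.exp (κ * Real.log (Real.log T)))⁻¹ := by
            field_simp
      _ ≤ C' * (T : ℝ) ^ 2 * (Real.exp (κ * Real.log (Real.log T)))⁻¹ :=
          mul_le_mul_of_nonneg_right e1 (by positivity)
      _ = _ := by ring
  have hR0 : Tendsto (fun T : ℕ => ((R T).card : ℝ) / (T : ℝ) ^ 2) atTop (nhds 0) := by
    have e1 : Tendsto (fun T : ℕ => C' * Real.exp (-(κ * Real.log (Real.log T)))) atTop
        (nhds 0) := by
      have e2 : Tendsto (fun T : ℕ => κ * Real.log (Real.log (T : ℝ))) atTop atTop :=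
        ll_tendsto.const_mul_atTop hκ0
      have e3 := (Real.tendsto_exp_neg_atTop_nhds_zero.comp e2).const_mul C'
      rw [mul_zero] at e3
      exact e3
    refine tendsto_of_tendsto_of_tendsto_of_le_of_le' tendsto_const_nhds e1 ?_ ?_
    · exact Eventually.of_forall fun T => by positivity
    · filter_upwards [eventually_ge_atTop 1, ll_tendsto.eventually_ge_atTop 0] with T hT hT2
      exact (hR1 T hT).resolve_right (not_lt.2 hT2)
  refine prop_of (fun T t => ∀ n : ℕ, (n : ℝ) ≤ (3 / 2 - ε) * Real.log (Real.log T) →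
        ∃ j : (Fin n → ZMod 2) →+ ShaK (F4 t.1 t.2) (KD D), Function.Injective j)
    A R hA0 hR0 ?_
  filter_upwards [ll_tendsto.eventually_ge_atTop ((6 + 2 ^ l) / δ)] with T hT6
  intro t ht
  obtain ⟨ht1, ht2⟩ := mem_filter.1 ht
  by_contra hcon
  apply ht2
  intro n hn
  rw [mem_union, not_or] at hcon
  obtain ⟨c1, c2⟩ := hcon
  have hBx := fam_sub T ht1
  obtain ⟨_, t1, t2, t3⟩ := mem_filter.1 hBx
  rw [hA, mem_filter, not_and, not_lt] at c1
  rw [hR, mem_filter, not_and, not_lt] at c2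
  have c1' := c1 hBx
  have c2' := c2 hBx
  obtain ⟨hfg, _⟩ := h1 t.1 t.2 t1 t2 t3 (KD D) (hF l D _ _
    (mul_ne_zero (by norm_num) t1) (mul_ne_zero (by norm_num) t2)
    (fun h => t3 (mul_left_cancel₀ (by norm_num) h)) hD)
  obtain ⟨Q, hQ, hcard⟩ := hcnt t.1 t.2 t1 t2 t3
  have h6 : 6 + 2 ^ l ≤ δ * Real.log (Real.log T) := by
    rw [div_le_iff₀ hδ0] at hT6
    linarith
  have h7 : (n : ℝ) + (6 + 2 ^ l) + (rkp (F4 t.1 t.2) (KD D) : ℝ) +
      (BB t.1 t.2).card ≤ (SS t.1 t.2).card := by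
    have e1 : ε = 4 * δ := by rw [hδ]; ring
    rw [e1] at hn
    have h2l : (0 : ℝ) ≤ 2 ^ l := by positivity
    nlinarith
  have h8 : n + (6 + 2 ^ l) + rkp (F4 t.1 t.2) (KD D) + (BB t.1 t.2).card ≤
      (SS t.1 t.2).card := by exact_mod_cast h7
  have h9 : 16 * 2 ^ (2 ^ l) * 2 ^ rkp (F4 t.1 t.2) (KD D) * 2 ^ n ≤ Q.card := by
    have g1 : 2 ^ ((BB t.1 t.2).card + 2) *
        (16 * 2 ^ (2 ^ l) * 2 ^ rkp (F4 t.1 t.2) (KD D) * 2 ^ n) ≤
        2 ^ ((BB t.1 t.2).card + 2) * Q.card := by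
      refine le_trans ?_ hcard
      calc _ = 2 ^ (n + (6 + 2 ^ l) + rkp (F4 t.1 t.2) (KD D) +
            (BB t.1 t.2).card) := by
            simp only [pow_add]
            ring
        _ ≤ _ := Nat.pow_le_pow_right (by norm_num) h8
    exact Nat.le_of_mul_le_mul_left g1 (by positivity)
  exact hker t.1 t.2 t1 t2 t3 l D hfg Q n (fun d hd => (hQ d hd).1)
    (fun d hd s hs => hmem t.1 t.2 t1 t2 t3 d s (hQ d hd) hs) h9

end Pool.Agent.W307.LK
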