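import Mathlib
import Pool.Agent.W262.SH.StmB
import Pool.Agent.W307.LS.Stm

/-!
# Project LK: the curves with a cyclic 4-isogeny over multiquadratic fields: statements

`F4 a b` is `y² = x (x² + 2 (a + b) x + (a - b)²)`, 2-isogenous to
`E (4 a) (4 b) : y² = x (x - 4 a) (x - 4 b)`, `KD D = ℚ(√D_1, ..., √D_l)`.
-/

set_option autoImplicit false

namespace Pool.Agent.W307.LK

open Finset WeierstrassCurve Pool.Agent.W262.SH Pool.Agent.W307.LS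

open scoped Classical

/-- the group of the points over `L` is finitely generated -/
def FGp (W : WeierstrassCurve ℚ) (L : Type) [Field L] [Algebra ℚ L] : Prop :=
  AddGroup.FG (Pt W L)

/-- the rank over `L` -/
noncomputable def rkp (W : WeierstrassCurve ℚ) (L : Type) [Field L] [Algebra ℚ L] : ℕ :=
  Module.finrank ℤ (Pt W L)

/-- FGK: Mordell-Weil over multiquadratic fields -/
def FGK : Prop := ∀ (l : ℕ) (D : Fin l → ℤ) (A B : ℤ), A ≠ 0 → B ≠ 0 → A ≠ B →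
  (∀ i, D i ≠ 0) → FGp (E A B) (KD D)

/-- RNKL: the rank of `F4 a b` is at most that of `E (4 a) (4 b)` -/
def RNKL : Prop := ∀ a b : ℤ, a ≠ 0 → b ≠ 0 → a ≠ b → ∀ (L : Type) [Field L] [Algebra ℚ L],
  FGp (E (4 * a) (4 * b)) L →
  FGp (F4 a b) L ∧ rkp (F4 a b) L ≤ rkp (E (4 * a) (4 * b)) L

/-- SHL: `Ш` and the isogeny -/
def SHL : Prop := ∀ a b : ℤ, a ≠ 0 → b ≠ 0 → a ≠ b → ∀ L : IntermediateField ℚ QB,
  ∃ Φ : ShaK (F4 a b) L →+ ShaK (E (4 * a) (4 * b)) L, ∀ c, Φ c = 0 → c + c = 0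

/-- KERL: many cocycles give a large subgroup of `Ш` -/
def KERL : Prop := ∀ a b : ℤ, a ≠ 0 → b ≠ 0 → a ≠ b → ∀ (l : ℕ) (D : Fin l → ℤ),
  FGp (F4 a b) (KD D) → ∀ (Q : Finset ℕ) (n : ℕ), (∀ d ∈ Q, Squarefree d) →
  (∀ d ∈ Q, ∀ s : QB, s ^ 2 = (d : QB) → cs a b s ∈ shaCoc (F4 a b)) →
  16 * 2 ^ (2 ^ l) * 2 ^ rkp (F4 a b) (KD D) * 2 ^ n ≤ Q.card →
  ∃ j : (Fin n → ZMod 2) →+ ShaK (F4 a b) (KD D), Function.Injective j

end Pool.Agent.W307.LK
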